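import Mathlib
import Pool.Agent.H699.T.Unit

set_option autoImplicit false

namespace Pool.Agent.H353.T.USB

open Finset Classical
open Pool.Agent.H699.T

theorem count_lem (n : ℕ) (P : ℕ → Prop) [DecidablePred P] (hP : ∀ u v, u ≤ v → P v → P u) :
    ((range (n + 1)).filter P).card ≤ n + 1 ∧
      ∀ u ≤ n, (u < ((range (n + 1)).filter P).card ↔ P u) := by
  refine ⟨(card_filter_le _ _).trans (by rw [card_range]), fun u hu => ⟨fun h => ?_, fun h => ?_⟩⟩
  · by_contra hn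
    have hs : (range (n + 1)).filter P ⊆ range u := by
      intro v hv
      rw [mem_filter] at hv
      rw [mem_range]
      by_contra hc
      exact hn (hP u v (not_lt.1 hc) hv.2)
    have := card_le_card hs
    rw [card_range] at this
    omega
  · have hs : range (u + 1) ⊆ (range (n + 1)).filter P := by
      intro v hv
      rw [mem_range] at hv
      rw [mem_filter, mem_range]
      exact ⟨by omega, hP v u (by omega) h⟩
    have := card_le_card hs
    rw [card_range] at this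
    omega

theorem t_CAPS : S_CAPS := by
  intro N Kp d
  refine ⟨fun h y => ?_, fun B c y => ?_⟩
  · unfold c1
    refine count_lem Kp (fun u => ∀ x, h x ≠ 0 → 2 * ((h x - 1) + u) ≤ 3 * d x y) ?_
    intro u v huv hv x hx
    have := hv x hx
    omega
  · unfold c2
    refine count_lem Kp (fun u => ∀ x ∈ B, c x ≠ 0 → 2 * ((c x - 1) + u) ≤ 3 * d x y) ?_
    intro u v huv hv x hxB hx
    have := hv x hxB hx
    omega

variable {N : ℕ}

theorem res_V0 (s : US N) {W : Finset (Fin N)} (hW : W ⊆ s.V0) : (s.res W).V0 = W := by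
  show s.V0 ∩ W = W
  exact inter_eq_right.2 hW

theorem res_w (s : US N) {W : Finset (Fin N)} {x : Fin N} (hx : x ∈ W) :
    (s.res W).w x = s.w x := by
  show (if x ∈ W then s.w x else 0) = s.w x
  rw [if_pos hx]

theorem res_ch (s : US N) {W : Finset (Fin N)} {x : Fin N} (hx : x ∈ W) :
    (s.res W).ch x = s.ch x := by
  show (if x ∈ W then s.ch x else ∅) = s.ch x
  rw [if_pos hx]

theorem res_top (s : US N) {W : Finset (Fin N)} {x : Fin N} (hx : x ∈ W) :
    (s.res W).top x = s.top x := by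
  show (if x ∈ W then s.top x else x) = s.top x
  rw [if_pos hx]

theorem res_d (s : US N) {W : Finset (Fin N)} {x y : Fin N} (hx : x ∈ W) (hy : y ∈ W) :
    (s.res W).d x y = s.d x y := by
  show (if x ∈ W ∧ y ∈ W then s.d x y else 0) = s.d x y
  rw [if_pos ⟨hx, hy⟩]

theorem res_pt (s : US N) {W : Finset (Fin N)} (hc : ∀ x ∈ W, s.ch x ⊆ W) (Z : Finset (Fin N))
    {x : Fin N} (hx : x ∈ W) : (s.res W).pt Z x = s.pt Z x := by
  unfold US.pt
  rw [res_ch s hx]
  exact sum_congr rfl fun v hv => res_w s (hc x hx (mem_sdiff.1 hv).1)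

theorem res_sum (s : US N) {W Z : Finset (Fin N)} (hZ : Z ⊆ W) :
    ∑ v ∈ Z, (s.res W).w v = ∑ v ∈ Z, s.w v :=
  sum_congr rfl fun _ hv => res_w s (hZ hv)

theorem pt_self (s : US N) {W : Finset (Fin N)} (hc : ∀ x ∈ W, s.ch x ⊆ W) {x : Fin N}
    (hx : x ∈ W) : s.pt W x = 0 := by
  unfold US.pt
  rw [sdiff_eq_empty_iff_subset.2 (hc x hx), sum_empty]

theorem zmin_spec (s : US N) {W : Finset (Fin N)} (hW : W ⊆ s.V0) (hc : ∀ x ∈ W, s.ch x ⊆ W) :
    (s.res W).zmin ⊆ W ∧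
    (∀ x ∈ W, ∀ y ∈ W, s.top x ≠ s.top y →
      2 * (s.pt (s.res W).zmin x + s.pt (s.res W).zmin y) ≤ 3 * s.d x y) ∧
    (∀ Z', Z' ⊆ W → (∀ x ∈ W, ∀ y ∈ W, s.top x ≠ s.top y →
      2 * (s.pt Z' x + s.pt Z' y) ≤ 3 * s.d x y) → ∑ v ∈ (s.res W).zmin, s.w v ≤ ∑ v ∈ Z', s.w v) := by
  have hCF : ∀ Z, (s.res W).CF Z ↔ ∀ x ∈ W, ∀ y ∈ W, s.top x ≠ s.top y →
      2 * (s.pt Z x + s.pt Z y) ≤ 3 * s.d x y := by
    intro Z
    unfold US.CF
    rw [res_V0 s hW]
    constructor
    · intro h x hx y hy ht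
      have := h x hx y hy (by rw [res_top s hx, res_top s hy]; exact ht)
      rw [res_pt s hc Z hx, res_pt s hc Z hy, res_d s hx hy] at this
      exact this
    · intro h x hx y hy ht
      rw [res_top s hx, res_top s hy] at ht
      rw [res_pt s hc Z hx, res_pt s hc Z hy, res_d s hx hy]
      exact h x hx y hy ht
  have hne : ((W.powerset).filter fun Z => (s.res W).CF Z).Nonempty := by
    refine ⟨W, mem_filter.2 ⟨mem_powerset.2 (Subset.refl W), ?_⟩⟩
    rw [hCF]
    intro x hx y hy _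
    rw [pt_self s hc hx, pt_self s hc hy]
    omega
  obtain ⟨Z0, hZ0, hmin⟩ := exists_min_image _ (fun Z => ∑ v ∈ Z, (s.res W).w v) hne
  rw [mem_filter, mem_powerset] at hZ0
  have hex : ∃ Z, (s.res W).IsZmin Z := by
    refine ⟨Z0, ?_, hZ0.2, ?_⟩
    · rw [res_V0 s hW]; exact hZ0.1
    · intro Z' hZ' hCF'
      rw [res_V0 s hW] at hZ'
      exact hmin Z' (mem_filter.2 ⟨mem_powerset.2 hZ', hCF'⟩)
  have hz : (s.res W).zmin = Classical.choose hex := by
    unfold US.zmin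
    rw [dif_pos hex]
  obtain ⟨a1, a2, a3⟩ := Classical.choose_spec hex
  rw [← hz] at a1 a2 a3
  rw [res_V0 s hW] at a1
  refine ⟨a1, (hCF _).1 a2, ?_⟩
  intro Z' hZ' h'
  have := a3 Z' (by rw [res_V0 s hW]; exact hZ') ((hCF _).2 h')
  rw [res_sum s a1, res_sum s hZ'] at this
  exact this

theorem pmin_spec (s : US N) {W : Finset (Fin N)} (hW : W ⊆ s.V0) (hc : ∀ x ∈ W, s.ch x ⊆ W)
    (c : Fin N → ℕ) (h0 : ∀ x ∈ W, c x ≠ 0) :
    (s.res W).pmin (fun x => if x ∈ W then c x else 0) ⊆ W ∧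
    (∀ x ∈ W, s.pt ((s.res W).pmin (fun x => if x ∈ W then c x else 0)) x + 1 ≤ c x) ∧
    (∀ Z', Z' ⊆ W → (∀ x ∈ W, s.pt Z' x + 1 ≤ c x) →
      ∑ v ∈ (s.res W).pmin (fun x => if x ∈ W then c x else 0), s.w v ≤ ∑ v ∈ Z', s.w v) := by
  have hP : ∀ Z, (∀ x ∈ (s.res W).V0, (s.res W).pt Z x + 1 ≤ (if x ∈ W then c x else 0)) ↔
      ∀ x ∈ W, s.pt Z x + 1 ≤ c x := by
    intro Z
    rw [res_V0 s hW]
    constructor
    · intro h x hx
      have := h x hx
      rw [res_pt s hc Z hx, if_pos hx] at this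
      exact this
    · intro h x hx
      rw [res_pt s hc Z hx, if_pos hx]
      exact h x hx
  have hne : ((W.powerset).filter fun Z => ∀ x ∈ W, s.pt Z x + 1 ≤ c x).Nonempty := by
    refine ⟨W, mem_filter.2 ⟨mem_powerset.2 (Subset.refl W), ?_⟩⟩
    intro x hx
    rw [pt_self s hc hx]
    have := h0 x hx
    omega
  obtain ⟨Z0, hZ0, hmin⟩ := exists_min_image _ (fun Z => ∑ v ∈ Z, (s.res W).w v) hne
  rw [mem_filter, mem_powerset] at hZ0
  have hex : ∃ Z, (s.res W).IsPmin (fun x => if x ∈ W then c x else 0) Z := by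
    refine ⟨Z0, ?_, (hP Z0).2 hZ0.2, ?_⟩
    · rw [res_V0 s hW]; exact hZ0.1
    · intro Z' hZ' h'
      rw [res_V0 s hW] at hZ'
      exact hmin Z' (mem_filter.2 ⟨mem_powerset.2 hZ', (hP Z').1 h'⟩)
  have hz : (s.res W).pmin (fun x => if x ∈ W then c x else 0) = Classical.choose hex := by
    unfold US.pmin
    rw [dif_pos hex]
  obtain ⟨a1, a2, a3⟩ := Classical.choose_spec hex
  rw [← hz] at a1 a2 a3
  rw [res_V0 s hW] at a1
  refine ⟨a1, (hP _).1 a2, ?_⟩
  intro Z' hZ' h'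
  have := a3 Z' (by rw [res_V0 s hW]; exact hZ') ((hP _).2 h')
  rw [res_sum s a1, res_sum s hZ'] at this
  exact this

theorem pmin_sub (s : US N) {W : Finset (Fin N)} (hW : W ⊆ s.V0) (c : Fin N → ℕ) :
    (s.res W).pmin c ⊆ W := by
  unfold US.pmin
  split_ifs with h
  · have := (Classical.choose_spec h).1
    rw [res_V0 s hW] at this
    exact this
  · exact empty_subset _

theorem t_USB : S_USB := by
  intro N s k M Kp ok
  have hVA : ∀ A, s.VA A ⊆ s.V0 := fun A => filter_subset _ _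
  have hVAc : ∀ A, ∀ x ∈ s.VA A, s.ch x ⊆ s.VA A := by
    intro A x hx y hy
    unfold US.VA at hx ⊢
    rw [mem_filter] at hx ⊢
    refine ⟨ok.sub x hx.1 hy, ?_⟩
    rw [ok.topc x hx.1 y hy]
    exact hx.2
  have hun : ∀ l, s.un l ⊆ s.V0 := fun l => filter_subset _ _
  have hunc : ∀ l, ∀ x ∈ s.un l, s.ch x ⊆ s.un l := by
    intro l x hx y hy
    unfold US.un at hx ⊢
    rw [mem_filter] at hx ⊢
    refine ⟨ok.sub x hx.1 hy, ?_⟩
    rw [ok.topc x hx.1 y hy]
    exact hx.2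
  refine ⟨?_, ?_, ?_, hunc, ?_, ?_, ?_, ?_⟩
  · intro A
    obtain ⟨b1, b2, b3⟩ := zmin_spec s (hVA A) (hVAc A)
    exact ⟨fun Z x hx => res_pt s (hVAc A) Z hx, b1, b2, b3⟩
  · intro c l hl
    refine pmin_spec s (hun l) (hunc l) c ?_
    intro x hx h0
    exact hl ⟨x, hx, h0⟩
  · intro c l
    exact pmin_sub s (hun l) _
  · intro l
    calc ∑ v ∈ s.un l, s.w v ≤ ∑ _v ∈ s.un l, k := sum_le_sum fun v _ => ok.wk v
      _ = (s.un l).card * k := by rw [sum_const, smul_eq_mul]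
      _ ≤ M * k := Nat.mul_le_mul_right _ (ok.card l)
      _ = k * M := mul_comm _ _
  · intro Z x hx
    exact (sum_le_sum_of_subset sdiff_subset).trans (ok.chw x hx)
  · intro Z x y hx hy ht
    have hd : Disjoint (s.ch x) (s.ch y) := by
      rw [disjoint_left]
      intro v hv hv'
      exact ht (by rw [← ok.topc x hx v hv, ← ok.topc y hy v hv'])
    unfold US.cw US.pt
    rw [hd.symmDiff_eq_sup]
    show ∑ v ∈ (s.ch x ∪ s.ch y) \ Z, s.w v = _
    rw [union_sdiff_distrib]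
    exact sum_union (disjoint_of_subset_left sdiff_subset
      (disjoint_of_subset_right sdiff_subset hd))
  · intro A g
    have hVb : s.VA A = A.biUnion s.un := by
      ext x
      unfold US.VA US.un
      simp only [mem_filter, mem_biUnion]
      constructor
      · rintro ⟨h1, h2⟩; exact ⟨s.top x, h2, h1, rfl⟩
      · rintro ⟨l, hl, h1, rfl⟩; exact ⟨h1, hl⟩
    rw [hVb, sum_biUnion]
    intro l _ l' _ hll
    simp only [Function.onFun]
    rw [disjoint_left]
    intro x hx hx'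
    unfold US.un at hx hx'
    rw [mem_filter] at hx hx'
    exact hll (hx.2.symm.trans hx'.2)

end Pool.Agent.H353.T.USB
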